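import Pool.Agent.Helper35.EAM.Spec

set_option autoImplicit false

namespace Pool.Agent.Helper36.EAM

open Pool.Agent.Helper35.EAM

lemma sum_pos {D : Type} [Fintype D] [DecidableEq D] {n : ℕ} (s : Fin n → D) (m : ℕ) (hm : m ≤ n) :
    ∑ c, pos s m c = m := by
  unfold pos
  rw [← Nat.cast_sum]
  have h1 : ∑ c, (Finset.univ.filter fun l : Fin n => l.val < m ∧ s l = c).card =
      (Finset.univ.filter fun l : Fin n => l.val < m).card := by
    rw [Finset.card_eq_sum_card_fiberwise (f := s) (t := Finset.univ) (fun _ _ => Finset.mem_coe.mpr (Finset.mem_univ _))]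
    apply Finset.sum_congr rfl
    intro c _
    rw [Finset.filter_filter]
  rw [h1]
  have h2 : (Finset.univ.filter fun l : Fin n => l.val < m).card = m := by
    rw [Fin.card_filter_val_lt]
    omega
  rw [h2]

lemma pos_nonneg {D : Type} [DecidableEq D] {n : ℕ} (s : Fin n → D) (m : ℕ) (c : D) :
    0 ≤ pos s m c := Int.natCast_nonneg _

lemma pos_succ {D : Type} [DecidableEq D] {n : ℕ} (s : Fin n → D) (m : Fin n) :
    pos s (m.val + 1) = pos s m.val + Pi.single (s m) 1 := by
  funext c
  unfold pos
  simp only [Pi.add_apply]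
  have h1 : (Finset.univ.filter fun l : Fin n => l.val < m.val + 1 ∧ s l = c) =
      (Finset.univ.filter fun l : Fin n => l.val < m.val ∧ s l = c) ∪
        (if s m = c then {m} else ∅) := by
    ext l
    split_ifs with h
    · simp only [Finset.mem_filter, Finset.mem_univ, true_and, Finset.mem_union, Finset.mem_singleton]
      constructor
      · rintro ⟨h1, h2⟩
        rcases Nat.lt_succ_iff_lt_or_eq.mp h1 with h3 | h3
        · exact Or.inl ⟨h3, h2⟩
        · exact Or.inr (Fin.ext h3)
      · rintro (⟨h1, h2⟩ | rfl)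
        · exact ⟨by omega, h2⟩
        · exact ⟨by omega, h⟩
    · simp only [Finset.mem_filter, Finset.mem_univ, true_and, Finset.union_empty]
      constructor
      · rintro ⟨h1, h2⟩
        rcases Nat.lt_succ_iff_lt_or_eq.mp h1 with h3 | h3
        · exact ⟨h3, h2⟩
        · have : l = m := Fin.ext h3
          rw [this] at h2
          exact absurd h2 h
      · rintro ⟨h1, h2⟩
        exact ⟨by omega, h2⟩
  rw [h1, Finset.card_union_of_disjoint]
  · by_cases h : s m = c
    · rw [if_pos h, ← h, Pi.single_eq_same, Finset.card_singleton]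
      push_cast
      rfl
    · rw [if_neg h, Pi.single_eq_of_ne (Ne.symm h), Finset.card_empty]
      push_cast
      rfl
  · split_ifs with h
    · rw [Finset.disjoint_singleton_right]
      simp
    · exact Finset.disjoint_empty_right _

lemma bond_inj {D : Type} [Fintype D] [DecidableEq D] {n : ℕ} (s s' : Fin n → D) (m m' : Fin n)
    (h : (pos s m.val, s m) = (pos s' m'.val, s' m')) : m = m' := by
  have h1 : pos s m.val = pos s' m'.val := congrArg Prod.fst h
  have h2 := sum_pos s m.val m.2.le
  have h3 := sum_pos s' m'.val m'.2.le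
  rw [h1, h3] at h2
  exact Fin.ext (by exact_mod_cast h2.symm)

lemma card_bonds {D : Type} [Fintype D] [DecidableEq D] {n : ℕ} (s : Fin n → D) :
    (bonds s).card = n := by
  unfold bonds
  rw [Finset.card_image_of_injective _ (fun m m' h => bond_inj s s m m' h)]
  simp

lemma pos_zero {D : Type} [DecidableEq D] {n : ℕ} (s : Fin n → D) : pos s 0 = 0 := by
  funext c
  simp [pos]

theorem t_PATH : S_PATH := by
  intro k n s
  refine ⟨?_, card_bonds s, ?_, pos_zero s, fun m => pos_succ s m, ?_⟩
  · intro b hb
    simp only [bonds, Finset.mem_image, Finset.mem_univ, true_and] at hb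
    obtain ⟨m, rfl⟩ := hb
    have h1 := sum_pos s m.val m.2.le
    simp only [NdS, Finset.mem_filter, Fintype.mem_piFinset, Finset.mem_Ico]
    refine ⟨fun c => ⟨pos_nonneg s _ c, ?_⟩, ?_⟩
    · have h2 : pos s m.val c ≤ ∑ c, pos s m.val c :=
        Finset.single_le_sum (f := fun c => pos s m.val c) (fun c _ => pos_nonneg s _ c) (Finset.mem_univ c)
      have h3 : (m.val : ℤ) < n := by exact_mod_cast m.2
      omega
    · rw [h1]
      exact_mod_cast m.2
  · have h1 := sum_pos s n le_rfl
    simp only [BdS, Finset.mem_filter, Fintype.mem_piFinset, Finset.mem_Icc]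
    refine ⟨fun c => ⟨pos_nonneg s _ c, ?_⟩, h1⟩
    have h2 : pos s n c ≤ ∑ c, pos s n c :=
      Finset.single_le_sum (f := fun c => pos s n c) (fun c _ => pos_nonneg s _ c) (Finset.mem_univ c)
    omega
  · intro f hf
    have h1 : ∀ m ≤ n, f 0 = f (pos s m) := by
      intro m
      induction m with
      | zero => intro _; rw [pos_zero]
      | succ m ih =>
        intro hm
        rw [ih (by omega)]
        have h2 := pos_succ s ⟨m, by omega⟩
        simp only at h2
        rw [h2]
        exact hf (pos s m, s ⟨m, by omega⟩) (by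
          simp only [bonds, Finset.mem_image, Finset.mem_univ, true_and]
          exact ⟨⟨m, by omega⟩, rfl⟩)
    exact h1 n le_rfl

theorem t_UNI : S_UNI := by
  intro D _ _ n s s'
  have h1 : (bonds s ∩ bonds s').card =
      (Finset.univ.filter fun m : Fin n => pos s m.val = pos s' m.val ∧ s m = s' m).card := by
    symm
    apply Finset.card_bij (fun m _ => (pos s m.val, s m))
    · intro m hm
      simp only [Finset.mem_filter, Finset.mem_univ, true_and] at hm
      simp only [Finset.mem_inter, bonds, Finset.mem_image, Finset.mem_univ, true_and]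
      exact ⟨⟨m, rfl⟩, ⟨m, by rw [hm.1, hm.2]⟩⟩
    · intro m _ m' _ h
      exact bond_inj s s m m' h
    · intro b hb
      simp only [Finset.mem_inter, bonds, Finset.mem_image, Finset.mem_univ, true_and] at hb
      obtain ⟨⟨m, rfl⟩, ⟨m', h⟩⟩ := hb
      have h2 : m = m' := bond_inj s s' m m' h.symm
      rw [← h2] at h
      refine ⟨m, ?_, rfl⟩
      simp only [Finset.mem_filter, Finset.mem_univ, true_and]
      exact ⟨(congrArg Prod.fst h).symm, (congrArg Prod.snd h).symm⟩
  rw [← h1, Finset.card_union_add_card_inter, card_bonds, card_bonds]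
  ring

theorem t_SEC (hU : S_UNI) (hE : S_EXPA) (hR : S_REN) (hW : S_WALK) : S_SEC := by
  intro r n p hr hp hp1 hrp
  have : Nonempty (Fin r) := ⟨⟨0, by omega⟩⟩
  have : Nonempty (Dir r) := inferInstance
  have hcard : Fintype.card (Dir r) = 16 * r := by
    simp [Dir, Fintype.card_prod]
  let e : Dir r ≃ Fin (16 * r) := Fintype.equivFinOfCardEq hcard
  have hpow : ∀ s s' : Fin n → Fin (16 * r), p ^ (bonds s ∪ bonds s').card = p ^ (2 * n) *
      (1 / p) ^ (Finset.univ.filter fun m : Fin n => pos s m.val = pos s' m.val ∧ s m = s' m).card := by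
    intro s s'
    rw [← hU _ n s s', pow_add, mul_assoc, ← mul_pow, mul_one_div_cancel hp.ne', one_pow, mul_one]
  simp only [hpow]
  have htrans : ∀ s s' : Fin n → Dir r, (Finset.univ.filter fun m : Fin n =>
      pos (e ∘ s) m.val = pos (e ∘ s') m.val ∧ (e ∘ s) m = (e ∘ s') m).card =
      (Finset.univ.filter fun m : Fin n => pos s m.val = pos s' m.val ∧ s m = s' m).card := by
    intro s s'
    congr 1
    apply Finset.filter_congr
    intro m _
    have h1 : ∀ (s : Fin n → Dir r) (c : Dir r), pos (e ∘ s) m.val (e c) = pos s m.val c := by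
      intro s c
      simp [pos]
    have h2 : pos (e ∘ s) m.val = pos (e ∘ s') m.val ↔ pos s m.val = pos s' m.val := by
      constructor
      · intro h
        funext c
        rw [← h1, ← h1, h]
      · intro h
        funext c
        obtain ⟨c', rfl⟩ := e.surjective c
        rw [h1, h1, h]
    rw [h2]
    simp
  have hsum : ∑ s : Fin n → Fin (16 * r), ∑ s' : Fin n → Fin (16 * r), p ^ (2 * n) *
      (1 / p) ^ (Finset.univ.filter fun m : Fin n => pos s m.val = pos s' m.val ∧ s m = s' m).card =
      p ^ (2 * n) * ((Fintype.card (Dir r) : ℝ) ^ (2 * n) * fR (Dir r) (1 / p - 1) n 0) := by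
    rw [← hE (Dir r) n (1 / p), Finset.mul_sum]
    symm
    apply Fintype.sum_equiv (Equiv.arrowCongr (Equiv.refl (Fin n)) e)
    intro s
    rw [Finset.mul_sum]
    apply Fintype.sum_equiv (Equiv.arrowCongr (Equiv.refl (Fin n)) e)
    intro s'
    rw [← htrans s s']
    rfl
  rw [hsum]
  have h3 : fR (Dir r) (1 / p - 1) n 0 ≤ 2 := by
    apply hR
    · have : 1 ≤ 1 / p := by
        rw [le_div_iff₀ hp]
        linarith
      linarith
    · intro n'
      have h4 := hW r n' hr
      have h5 : 1 / p ≤ 32 * r / 5 := by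
        rw [div_le_div_iff₀ hp (by norm_num)]
        linarith
      have h6 : 0 ≤ 1 / p - 1 := by
        have : 1 ≤ 1 / p := by
          rw [le_div_iff₀ hp]
          linarith
        linarith
      rw [hcard]
      push_cast
      calc (1 / p - 1) * ∑ t ∈ Finset.range n', gR (Dir r) t 0 ≤ (1 / p - 1) * (5 / 4) :=
            mul_le_mul_of_nonneg_left h4 h6
        _ ≤ (32 * r / 5 - 0) * (5 / 4) := by
            apply mul_le_mul_of_nonneg_right _ (by norm_num)
            linarith
        _ = 16 * r / 2 := by ring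
  rw [hcard]
  push_cast
  have h7 : 0 ≤ p ^ (2 * n) * (16 * (r : ℝ)) ^ (2 * n) := by positivity
  calc p ^ (2 * n) * ((16 * (r : ℝ)) ^ (2 * n) * fR (Dir r) (1 / p - 1) n 0)
      = (p ^ (2 * n) * (16 * (r : ℝ)) ^ (2 * n)) * fR (Dir r) (1 / p - 1) n 0 := by ring
    _ ≤ (p ^ (2 * n) * (16 * (r : ℝ)) ^ (2 * n)) * 2 := mul_le_mul_of_nonneg_left h3 h7
    _ = 2 * ((16 * r) ^ n * p ^ n) ^ 2 := by ring

end Pool.Agent.Helper36.EAM
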